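import Mathlib
import Pool.Agent.Y734.Stms3
import Pool.Agent.Y734.EF.Rank
import Pool.Agent.Y734.PRIN.Main

/-!
# Job DIM of the project Y734/QP
-/

set_option autoImplicit false

namespace Pool.Agent.Y734.DIM

open Pool.Agent.Y734 Pool.Agent.Y734.B Pool.Agent.Y734.EF
open MvPolynomial Finset

section

variable {Ω : Type} [Field Ω] [Algebra ℚ Ω]

theorem finrank_le (x : Fin 4 → Ω) (k : ℕ) :
    Module.finrank ℚ ((Submodule.span ℚ (Set.range x)) ^ k : Submodule ℚ Ω) ≤ (D k).card := by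
  rw [← phi_range, ← finrank_hom]
  exact LinearMap.finrank_range_le _

theorem mu_inj {F : MvPolynomial (Fin 4) ℚ} (hF0 : F ≠ 0) {e : ℕ} (hF : F.IsHomogeneous e) (k : ℕ)
    (hk : e ≤ k) : Function.Injective (mu hF k hk) := by
  intro Q Q' hQ
  have h1 := congrArg Subtype.val hQ
  rw [mu_apply, mu_apply] at h1
  exact Subtype.ext (mul_left_cancel₀ hF0 h1)

theorem finrank_mu {F : MvPolynomial (Fin 4) ℚ} (hF0 : F ≠ 0) {e : ℕ} (hF : F.IsHomogeneous e)
    (k : ℕ) (hk : e ≤ k) :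
    Module.finrank ℚ (LinearMap.range (mu hF k hk)) = (D (k - e)).card := by
  rw [LinearMap.finrank_range_of_inj (mu_inj hF0 hF k hk), finrank_hom]

/-- two relations without common factor -/
theorem finrank_two (x : Fin 4 → Ω) {F E : MvPolynomial (Fin 4) ℚ} {e e' : ℕ}
    (hF : F.IsHomogeneous e) (hE : E.IsHomogeneous e') (hirr : Irreducible F) (hE0 : E ≠ 0)
    (hFx : aeval x F = 0) (hEx : aeval x E = 0) (hnd : ¬ F ∣ E) (k : ℕ) (hk : e + e' ≤ k) :
    Module.finrank ℚ ((Submodule.span ℚ (Set.range x)) ^ k : Submodule ℚ Ω) + (D (k - e)).card +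
      (D (k - e')).card ≤ (D k).card + (D (k - (e + e'))).card := by
  have hF0 : F ≠ 0 := hirr.ne_zero
  have hk1 : e ≤ k := by omega
  have hk2 : e' ≤ k := by omega
  have hFE := hF.mul hE
  have hFE0 : F * E ≠ 0 := mul_ne_zero hF0 hE0
  set K := LinearMap.ker (phi x k)
  set R1 := LinearMap.range (mu hF k hk1)
  set R2 := LinearMap.range (mu hE k hk2)
  set R3 := LinearMap.range (mu hFE k hk)
  have h1 : R1 ≤ K := by
    rintro _ ⟨Q, rfl⟩
    rw [LinearMap.mem_ker]
    change aeval x (F * Q.1) = 0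
    rw [map_mul, hFx, zero_mul]
  have h2 : R2 ≤ K := by
    rintro _ ⟨Q, rfl⟩
    rw [LinearMap.mem_ker]
    change aeval x (E * Q.1) = 0
    rw [map_mul, hEx, zero_mul]
  have h3 : R1 ⊓ R2 ≤ R3 := by
    rintro G ⟨⟨P, hP⟩, ⟨Q, hQ⟩⟩
    have hP1 : F * P.1 = G.1 := congrArg Subtype.val hP
    have hQ1 : E * Q.1 = G.1 := congrArg Subtype.val hQ
    have hdvd : F ∣ E * Q.1 := ⟨P.1, by rw [hQ1, hP1]⟩
    obtain ⟨T, hT⟩ := (hirr.prime.dvd_or_dvd hdvd).resolve_left hnd
    have hG : G.1 = (F * E) * T := by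
      rw [← hQ1, hT]; ring
    have h4 : ((F * E) * T).IsHomogeneous k := by rw [← hG]; exact G.2
    refine ⟨⟨homogeneousComponent (k - (e + e')) T, homogeneousComponent_isHomogeneous _ _⟩, ?_⟩
    apply Subtype.ext
    rw [mu_apply, hG]
    exact (hom_factor hFE hk h4).symm
  have h4 := Submodule.finrank_sup_add_finrank_inf_eq R1 R2
  have h5 : Module.finrank ℚ (R1 ⊔ R2 : Submodule ℚ _) ≤ Module.finrank ℚ K :=
    Submodule.finrank_mono (sup_le h1 h2)
  have h6 : Module.finrank ℚ (R1 ⊓ R2 : Submodule ℚ _) ≤ Module.finrank ℚ R3 :=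
    Submodule.finrank_mono h3
  have h7 := LinearMap.finrank_range_add_finrank_ker (phi x k)
  rw [phi_range, finrank_hom] at h7
  rw [finrank_mu hF0 hF k hk1, finrank_mu hE0 hE k hk2] at h4
  rw [finrank_mu hFE0 hFE k hk] at h6
  change _ + Module.finrank ℚ K = _ at h7
  omega

end

theorem dim : DimStmt := by
  intro Ω _ _ x hex
  classical
  have hmin : ∃ e, (∃ G : MvPolynomial (Fin 4) ℚ, G.IsHomogeneous e ∧ G ≠ 0 ∧ aeval x G = 0) ∧
      ∀ k, (∃ G : MvPolynomial (Fin 4) ℚ, G.IsHomogeneous k ∧ G ≠ 0 ∧ aeval x G = 0) → e ≤ k :=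
    ⟨Nat.find hex, Nat.find_spec hex, fun k hk => Nat.find_min' hex hk⟩
  obtain ⟨e, ⟨F, hF, hF0, hFx⟩, hmin⟩ := hmin
  have hirr : Irreducible F :=
    PRIN.irr_of_min x e F hF hF0 hFx fun k G h1 h2 h3 => hmin k ⟨G, h1, h2, h3⟩
  by_cases hall : ∀ (k : ℕ) (G : MvPolynomial (Fin 4) ℚ), G.IsHomogeneous k → aeval x G = 0 → F ∣ G
  · exact Or.inl ⟨e, F, hF, hirr, hFx, hall⟩
  · right
    push Not at hall
    obtain ⟨e', E, hE, hEx, hnd⟩ := hall
    have hE0 : E ≠ 0 := fun h => hnd (by rw [h]; exact dvd_zero _)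
    refine ⟨2 * (e * e') + (D (e + e')).card, fun k => ?_⟩
    have hk1 : (1 : ℝ) ≤ (k : ℝ) + 1 := by
      have : (0 : ℝ) ≤ k := Nat.cast_nonneg k
      linarith
    by_cases hk : e + e' ≤ k
    · have h1 := finrank_two x hF hE hirr hE0 hFx hEx hnd k hk
      obtain ⟨t, rfl⟩ := Nat.exists_eq_add_of_le hk
      have e1 : e + e' + t - e = e' + t := by omega
      have e2 : e + e' + t - e' = e + t := by omega
      have e3 : e + e' + t - (e + e') = t := by omega
      rw [e1, e2, e3] at h1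
      have h2 : (Module.finrank ℚ ((Submodule.span ℚ (Set.range x)) ^ (e + e' + t) :
          Submodule ℚ Ω) : ℝ) + ((D (e' + t)).card : ℝ) + ((D (e + t)).card : ℝ) ≤
          ((D (e + e' + t)).card : ℝ) + ((D t).card : ℝ) := by exact_mod_cast h1
      rw [card_D, card_D, card_D (e + e' + t), card_D t] at h2
      push_cast at h2 ⊢
      have h3 : (0 : ℝ) ≤ (D (e + e')).card := Nat.cast_nonneg _
      have h4 : (0 : ℝ) ≤ e := Nat.cast_nonneg _
      have h5 : (0 : ℝ) ≤ e' := Nat.cast_nonneg _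
      have h6 : (0 : ℝ) ≤ t := Nat.cast_nonneg _
      have h7 : (Module.finrank ℚ ((Submodule.span ℚ (Set.range x)) ^ (e + e' + t) :
          Submodule ℚ Ω) : ℝ) ≤ e * e' * (t + 2 + (e + e') / 2) := by nlinarith
      have h8 : (e : ℝ) * e' * (t + 2 + (e + e') / 2) ≤ 2 * (e * e') * (e + e' + t + 1) := by
        have h9 : 0 ≤ (e : ℝ) * e' := mul_nonneg h4 h5
        nlinarith
      have h9 : (0 : ℝ) ≤ ((D (e + e')).card : ℝ) * (e + e' + t + 1) := by positivity
      nlinarith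
    · have h1 : Module.finrank ℚ ((Submodule.span ℚ (Set.range x)) ^ k : Submodule ℚ Ω) ≤
          (D k).card := finrank_le x k
      have h2 : ((D k).card : ℝ) ≤ (D (e + e')).card := by
        rw [card_D, card_D]
        have h3 : (k : ℝ) ≤ ((e + e' : ℕ) : ℝ) := by
          have : k ≤ e + e' := by omega
          exact_mod_cast this
        have h4 : (0 : ℝ) ≤ k := Nat.cast_nonneg k
        gcongr
      have h3 : (Module.finrank ℚ ((Submodule.span ℚ (Set.range x)) ^ k : Submodule ℚ Ω) : ℝ) ≤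
          (D k).card := by exact_mod_cast h1
      have h4 : (0 : ℝ) ≤ (D (e + e')).card := Nat.cast_nonneg _
      have h5 : (0 : ℝ) ≤ 2 * ((e : ℝ) * e') := by positivity
      nlinarith

theorem dim3 : Dim3Stmt := by
  intro Ω _ _ x hex
  obtain ⟨k, G, hG, hG0, hGx⟩ := hex
  set x' : Fin 4 → Ω := Fin.snoc x 0 with hx'
  have hcast : ∀ i : Fin 3, x' i.castSucc = x i := fun i => by
    rw [hx', Fin.snoc_castSucc]
  have hlast : x' (Fin.last 3) = 0 := by rw [hx', Fin.snoc_last]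
  have hspan : Submodule.span ℚ (Set.range x') = Submodule.span ℚ (Set.range x) := by
    apply le_antisymm
    · rw [Submodule.span_le]
      rintro _ ⟨i, rfl⟩
      refine Fin.lastCases ?_ (fun j => ?_) i
      · rw [hlast]; exact Submodule.zero_mem _
      · rw [hcast]; exact Submodule.subset_span ⟨j, rfl⟩
    · rw [Submodule.span_le]
      rintro _ ⟨i, rfl⟩
      rw [← hcast]
      exact Submodule.subset_span ⟨_, rfl⟩
  have hG'x : aeval x' (rename Fin.castSucc G : MvPolynomial (Fin 4) ℚ) = 0 := by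
    rw [aeval_rename]
    have : x' ∘ Fin.castSucc = x := funext hcast
    rw [this, hGx]
  have hG'0 : (rename Fin.castSucc G : MvPolynomial (Fin 4) ℚ) ≠ 0 := by
    intro h
    exact hG0 (rename_injective _ (Fin.castSucc_injective 3) (by rw [h, map_zero]))
  have hG'h : (rename Fin.castSucc G : MvPolynomial (Fin 4) ℚ).IsHomogeneous k :=
    hG.rename_isHomogeneous
  rcases dim Ω x' ⟨k, _, hG'h, hG'0, hG'x⟩ with ⟨e, F, hF, hirr, hFx, hall⟩ | ⟨C, hC⟩
  · exfalso
    have h1 : F ∣ (X (Fin.last 3) : MvPolynomial (Fin 4) ℚ) :=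
      hall 1 _ (isHomogeneous_X _ _) (by rw [aeval_X, hlast])
    have h2 := hall k _ hG'h hG'x
    have h3 : (X (Fin.last 3) : MvPolynomial (Fin 4) ℚ) ∣ F := by
      have hX : Irreducible (X (Fin.last 3) : MvPolynomial (Fin 4) ℚ) :=
        (X_prime (R := ℚ) (i := Fin.last 3)).irreducible
      exact (hirr.associated_of_dvd hX h1).symm.dvd
    obtain ⟨Q, hQ⟩ := h3.trans h2
    have h4 := congrArg (aeval (Fin.snoc (fun i : Fin 3 => (X i : MvPolynomial (Fin 3) ℚ)) 0 :
      Fin 4 → MvPolynomial (Fin 3) ℚ)) hQ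
    rw [map_mul, aeval_X, Fin.snoc_last, zero_mul, aeval_rename] at h4
    have h5 : (Fin.snoc (fun i : Fin 3 => (X i : MvPolynomial (Fin 3) ℚ)) 0 :
      Fin 4 → MvPolynomial (Fin 3) ℚ) ∘ Fin.castSucc = X := by
      funext i
      simp
    rw [h5, aeval_X_left_apply] at h4
    exact hG0 h4
  · refine ⟨C, fun k => ?_⟩
    have := hC k
    rwa [hspan] at this

end Pool.Agent.Y734.DIM
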